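import Mathlib
import Pool.Agent.H35.Tape.Main

/-!
# Tame almost primitive elements of free groups are products of commutators or of squares
-/

namespace Pool.Agent.Results.MP_e920d4_al.TameAlmostPrimitive

/-- `g` belongs to some free basis of the group `G`. -/
def IsPrimitive {G : Type} [Group G] (g : G) : Prop :=
  ∃ (ι : Type) (b : FreeGroupBasis ι G) (i : ι), b i = g

/-- `ω` is not primitive in `G`, but it is primitive in every finitely generated proper subgroup
of `G` that contains it. -/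
def IsAlmostPrimitive {G : Type} [Group G] (ω : G) : Prop :=
  ¬ IsPrimitive ω ∧
    ∀ H : Subgroup G, H.FG → H ≠ ⊤ → ∀ h : ω ∈ H, IsPrimitive (⟨ω, h⟩ : H)

/-- `ω` is almost primitive and, for every subgroup `H` containing a positive power of `ω`, with
`α` the least positive integer such that `ω ^ α ∈ H`, either `ω ^ α` is primitive in `H` or the
index of `H` is `α`. -/
def IsTameAlmostPrimitive {G : Type} [Group G] (ω : G) : Prop :=
  IsAlmostPrimitive ω ∧
    ∀ (H : Subgroup G) (α : ℕ), 1 ≤ α → ∀ hα : ω ^ α ∈ H,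
      (∀ β : ℕ, 1 ≤ β → β < α → ω ^ β ∉ H) → IsPrimitive (⟨ω ^ α, hα⟩ : H) ∨ H.index = α

/-- `u = [a_1, b_1] ⋯ [a_g, b_g]` in the free group on `a_1, …, a_g, b_1, …, b_g`, where
`[a, b] = a b a⁻¹ b⁻¹`. -/
def u (g : ℕ) : FreeGroup (Fin g ⊕ Fin g) :=
  (List.ofFn fun i : Fin g => FreeGroup.of (Sum.inl i) * FreeGroup.of (Sum.inr i) *
    (FreeGroup.of (Sum.inl i))⁻¹ * (FreeGroup.of (Sum.inr i))⁻¹).prod

/-- `v = c_1² ⋯ c_p²` in the free group on `c_1, …, c_p`. -/
def v (p : ℕ) : FreeGroup (Fin p) := (List.ofFn fun i : Fin p => FreeGroup.of i ^ 2).prod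

/-- Every tame almost primitive element of a free group `F` of finite rank `n ≥ 2` is carried by
an isomorphism to `u` (and then `n = 2 g`) or to `v` (in rank `n`). -/
theorem result (n : ℕ) (hn : 2 ≤ n) (F : Type) [Group F] (b : FreeGroupBasis (Fin n) F) (ω : F)
    (h : IsTameAlmostPrimitive ω) :
    (∃ g : ℕ, 1 ≤ g ∧ n = 2 * g ∧ ∃ e : F ≃* FreeGroup (Fin g ⊕ Fin g), e ω = u g) ∨
    (∃ e : F ≃* FreeGroup (Fin n), e ω = v n) := by
  have hT : H35.Tape.TProp ω := fun H α h1 hα h2 => h.2 H α h1 hα h2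
  have hnp : ¬ H35.Tape.IsPrim ω := h.1.1
  have hT' : H35.Tape.TProp (b.repr ω) := hT.map b.repr
  have hnp' : ¬ H35.Tape.IsPrim (b.repr ω) := by
    rw [H35.Tape.isPrim_map_iff]
    exact hnp
  rcases H35.Tape.classification hn hT' hnp' with ⟨g, hg, hng, e, he⟩ | ⟨e, he⟩
  · left
    refine ⟨g, hg, hng, b.repr.trans e.symm, ?_⟩
    rw [MulEquiv.trans_apply, MulEquiv.symm_apply_eq, ← he]
    rfl
  · right
    refine ⟨b.repr.trans e.symm, ?_⟩
    rw [MulEquiv.trans_apply, MulEquiv.symm_apply_eq, ← he]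
    rfl

end Pool.Agent.Results.MP_e920d4_al.TameAlmostPrimitive
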